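import Pool.Agent.W_7d29a1_SR.Reg
import Pool.Agent.W_7d29a1_SR.VarW
import Pool.Agent.W_7d29a1_SR.CoreS

/-!
STORM Z (MP_7d29a1_pr), leaf PB: facts on the scales, in the form in which they are used (at all scales `1 ≤ m ≤ n`). (helper96)
-/

namespace Pool.Agent.W_7d29a1_Z96

open MeasureTheory ProbabilityTheory Filter Topology Finset
open Pool.Agent.W_7d29a1_F Pool.Agent.W_7d29a1_h4g Pool.Agent.W_7d29a1_G
open Pool.Agent.W_7d29a1_SR

/-! ### Pure: from large scales to all scales -/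

/-- The maximum over a finite number of scales. -/
theorem maj96 {f : ℕ → ℝ} (h1 : ∀ n, 1 ≤ f n) (N : ℕ) : ∃ M : ℝ, 1 ≤ M ∧ ∀ n, n ≤ N → f n ≤ M := by
  refine ⟨∑ i ∈ range (N + 1), f i, ?_, fun n hn => ?_⟩
  · refine (h1 0).trans (Finset.single_le_sum (f := f) (fun i _ => ?_) (Finset.mem_range.2 (Nat.succ_pos N)))
    exact zero_le_one.trans (h1 i)
  · exact Finset.single_le_sum (f := f) (fun i _ => zero_le_one.trans (h1 i)) (Finset.mem_range.2 (Nat.lt_succ_of_le hn))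

theorem one_le_rat96 {m n : ℕ} (hm : 1 ≤ m) (hmn : m ≤ n) : (1 : ℝ) ≤ (n : ℝ) / m := by
  have hmR : (0 : ℝ) < m := by exact_mod_cast hm
  rw [le_div_iff₀ hmR, one_mul]
  exact_mod_cast hmn

/-- Lower bounds of the growth. -/
theorem ext_low96 {f : ℕ → ℝ} (h1 : ∀ n, 1 ≤ f n) {a k : ℝ} (ha : 0 ≤ a) (hk : 0 < k) {n₁ : ℕ}
    (hf : ∀ m n : ℕ, n₁ ≤ m → m ≤ n → k * ((n : ℝ) / m) ^ a * f m ≤ f n) :
    ∃ K₀ : ℝ, 1 ≤ K₀ ∧ ∀ K : ℝ, K₀ ≤ K → ∀ m n : ℕ, 1 ≤ m → m ≤ n → K⁻¹ * ((n : ℝ) / m) ^ a * f m ≤ f n := by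
  obtain ⟨N, hN⟩ : ∃ N : ℕ, N = max n₁ 1 := ⟨_, rfl⟩
  have hN1 : 1 ≤ N := by rw [hN]; exact le_max_right _ _
  have hNn : n₁ ≤ N := by rw [hN]; exact le_max_left _ _
  have hNR : (0 : ℝ) < N := by exact_mod_cast hN1
  obtain ⟨M, hM1, hM⟩ := maj96 h1 N
  obtain ⟨Q, hQ⟩ : ∃ Q : ℝ, Q = (N : ℝ) ^ a * M := ⟨_, rfl⟩
  have hNa : (1 : ℝ) ≤ (N : ℝ) ^ a := Real.one_le_rpow (by exact_mod_cast hN1) ha
  have hQ1 : 1 ≤ Q := by rw [hQ]; exact one_le_mul_of_one_le_of_one_le hNa hM1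
  refine ⟨Q * (1 + 1 / k), ?_, fun K hK m n hm hmn => ?_⟩
  · have : 0 < 1 / k := by positivity
    nlinarith
  have hik : 0 < 1 / k := by positivity
  have hK0 : 0 < K := lt_of_lt_of_le (by positivity) hK
  have hmR : (0 : ℝ) < m := by exact_mod_cast hm
  have hfm : 0 < f m := lt_of_lt_of_le one_pos (h1 m)
  have hr := one_le_rat96 hm hmn
  have hra : 1 ≤ ((n : ℝ) / m) ^ a := Real.one_le_rpow hr ha
  rw [mul_assoc, inv_mul_le_iff₀ hK0]
  -- `(n / m) ^ a f m ≤ K f n`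
  rcases le_or_gt N m with hc | hc
  · have h2 := hf m n (hNn.trans hc) hmn
    have h3 : 1 / k ≤ K := by nlinarith
    have h4 : ((n : ℝ) / m) ^ a * f m ≤ 1 / k * f n := by
      rw [one_div, ← div_eq_inv_mul, le_div_iff₀ hk]
      linarith
    exact h4.trans (mul_le_mul_of_nonneg_right h3 (zero_le_one.trans (h1 n)))
  · rcases le_or_gt N n with hd | hd
    · have h2 := hf N n hNn hd
      have hnN := one_le_rat96 hN1 hd
      have e1 : (n : ℝ) / m = (n : ℝ) / N * ((N : ℝ) / m) := by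
        field_simp
      have h3 : ((n : ℝ) / m) ^ a ≤ ((n : ℝ) / N) ^ a * (N : ℝ) ^ a := by
        rw [e1, Real.mul_rpow (by positivity) (by positivity)]
        refine mul_le_mul_of_nonneg_left (Real.rpow_le_rpow (by positivity) ?_ ha) (by positivity)
        rw [div_le_iff₀ hmR]
        have : (1 : ℝ) ≤ m := by exact_mod_cast hm
        nlinarith
      have hp : 0 < ((n : ℝ) / N) ^ a := Real.rpow_pos_of_pos (by linarith) _
      have h4 : k * ((n : ℝ) / N) ^ a ≤ f n := by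
        refine le_trans ?_ h2
        have := h1 N
        have h5 : 0 < k * ((n : ℝ) / N) ^ a := by positivity
        nlinarith
      calc ((n : ℝ) / m) ^ a * f m ≤ ((n : ℝ) / N) ^ a * (N : ℝ) ^ a * M :=
            mul_le_mul h3 (hM m hc.le) hfm.le (by positivity)
        _ = Q * ((n : ℝ) / N) ^ a := by rw [hQ]; ring
        _ = Q * (1 / k) * (k * ((n : ℝ) / N) ^ a) := by field_simp
        _ ≤ Q * (1 / k) * f n := mul_le_mul_of_nonneg_left h4 (by positivity)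
        _ ≤ K * f n := by
            refine mul_le_mul_of_nonneg_right ?_ (zero_le_one.trans (h1 n))
            nlinarith
    · have h3 : ((n : ℝ) / m) ^ a ≤ (N : ℝ) ^ a := by
        refine Real.rpow_le_rpow (by positivity) ?_ ha
        rw [div_le_iff₀ hmR]
        have h5 : (n : ℝ) ≤ N := by exact_mod_cast hd.le
        have h6 : (1 : ℝ) ≤ m := by exact_mod_cast hm
        nlinarith
      calc ((n : ℝ) / m) ^ a * f m ≤ (N : ℝ) ^ a * M := mul_le_mul h3 (hM m hc.le) hfm.le (by positivity)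
        _ = Q * 1 := by rw [hQ, mul_one]
        _ ≤ K * f n := mul_le_mul (by nlinarith) (h1 n) zero_le_one hK0.le

/-- Upper bounds of the growth. -/
theorem ext_up96 {f : ℕ → ℝ} (h1 : ∀ n, 1 ≤ f n) {b k : ℝ} (hb : 0 ≤ b) (hk : 0 < k) {n₁ : ℕ}
    (hf : ∀ m n : ℕ, n₁ ≤ m → m ≤ n → f n ≤ k * ((n : ℝ) / m) ^ b * f m) :
    ∃ K₀ : ℝ, 1 ≤ K₀ ∧ ∀ K : ℝ, K₀ ≤ K → ∀ m n : ℕ, 1 ≤ m → m ≤ n → f n ≤ K * ((n : ℝ) / m) ^ b * f m := by
  obtain ⟨N, hN⟩ : ∃ N : ℕ, N = max n₁ 1 := ⟨_, rfl⟩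
  have hN1 : 1 ≤ N := by rw [hN]; exact le_max_right _ _
  have hNn : n₁ ≤ N := by rw [hN]; exact le_max_left _ _
  have hNR : (0 : ℝ) < N := by exact_mod_cast hN1
  obtain ⟨M, hM1, hM⟩ := maj96 h1 N
  refine ⟨M * (1 + k), by nlinarith, fun K hK m n hm hmn => ?_⟩
  have hK0 : 0 < K := lt_of_lt_of_le (by positivity) hK
  have hmR : (0 : ℝ) < m := by exact_mod_cast hm
  have hfm : 0 < f m := lt_of_lt_of_le one_pos (h1 m)
  have hr := one_le_rat96 hm hmn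
  have hrb : 1 ≤ ((n : ℝ) / m) ^ b := Real.one_le_rpow hr hb
  have hrb0 : 0 < ((n : ℝ) / m) ^ b := by linarith
  rcases le_or_gt N m with hc | hc
  · refine (hf m n (hNn.trans hc) hmn).trans ?_
    refine mul_le_mul_of_nonneg_right (mul_le_mul_of_nonneg_right ?_ hrb0.le) hfm.le
    nlinarith
  · rcases le_or_gt N n with hd | hd
    · have h2 := hf N n hNn hd
      have h3 : ((n : ℝ) / N) ^ b ≤ ((n : ℝ) / m) ^ b := by
        refine Real.rpow_le_rpow (by positivity) ?_ hb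
        refine div_le_div_of_nonneg_left (Nat.cast_nonneg n) hmR ?_
        exact_mod_cast hc.le
      have hp : 0 < ((n : ℝ) / N) ^ b := Real.rpow_pos_of_pos (by have := one_le_rat96 hN1 hd; linarith) _
      calc f n ≤ k * ((n : ℝ) / N) ^ b * f N := h2
        _ ≤ k * ((n : ℝ) / m) ^ b * M :=
            mul_le_mul (mul_le_mul_of_nonneg_left h3 hk.le) (hM N le_rfl) (zero_le_one.trans (h1 N)) (by positivity)
        _ = (k * M) * ((n : ℝ) / m) ^ b * 1 := by ring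
        _ ≤ K * ((n : ℝ) / m) ^ b * f m := by
            refine mul_le_mul (mul_le_mul_of_nonneg_right (by nlinarith) hrb0.le) (h1 m) zero_le_one (by positivity)
    · calc f n ≤ M := hM n hd.le
        _ = M * 1 * 1 := by ring
        _ ≤ K * ((n : ℝ) / m) ^ b * f m := by
            refine mul_le_mul (mul_le_mul (by nlinarith) hrb zero_le_one hK0.le) (h1 m) zero_le_one (by positivity)

/-! ### The unit and the width -/

variable {μ : Measure ℝ} [IsProbabilityMeasure μ] {c C : ℝ} {n₀ : ℕ}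

theorem EE1_96 (n : ℕ) : max 1 (EE μ n) = EE μ n := max_eq_right (Pool.Agent.W_7d29a1_G.one_le_EE (μ := μ) n)

/-- The unit at all scales. -/
theorem EE_all96 (h : In μ c C n₀) : ∃ a K : ℝ, 0 < a ∧ a < 1 ∧ 1 ≤ K ∧ ∀ m n : ℕ, 1 ≤ m → m ≤ n →
    max 1 (EE μ m) ≤ K * max 1 (EE μ n) ∧ K⁻¹ * ((n : ℝ) / m) ^ a * max 1 (EE μ m) ≤ max 1 (EE μ n) ∧
      max 1 (EE μ n) ≤ K * Real.sqrt ((n : ℝ) / m) * max 1 (EE μ m) := by
  obtain ⟨a, k, ha, hk, n₁, hn₁, hE⟩ := EE_ratio h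
  obtain ⟨A, hA, n₂, hn₂, hS⟩ := sub_half h
  have h1 : ∀ n, 1 ≤ EE μ n := fun n => Pool.Agent.W_7d29a1_G.one_le_EE (μ := μ) n
  obtain ⟨a', ha'⟩ : ∃ a' : ℝ, a' = min a (1 / 2) := ⟨_, rfl⟩
  have ha0 : 0 < a' := by rw [ha']; exact lt_min ha (by norm_num)
  have ha1 : a' < 1 := by
    have : a' ≤ 1 / 2 := by rw [ha']; exact min_le_right _ _
    linarith
  have haa : a' ≤ a := by rw [ha']; exact min_le_left _ _
  obtain ⟨K₁, hK₁, e1⟩ := ext_low96 (f := EE μ) h1 (a := a') ha0.le hk (n₁ := max n₁ 1) (fun m n hm hmn => by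
    refine le_trans ?_ (hE m n ((le_max_left _ _).trans hm) hmn)
    refine mul_le_mul_of_nonneg_right (mul_le_mul_of_nonneg_left ?_ hk.le) (zero_le_one.trans (h1 m))
    exact Real.rpow_le_rpow_of_exponent_le (one_le_rat96 ((le_max_right _ _).trans hm) hmn) haa)
  obtain ⟨K₂, hK₂, e2⟩ := ext_up96 (f := EE μ) h1 (b := 1 / 2) (by norm_num) (k := Real.sqrt A) (Real.sqrt_pos.2 hA)
    (n₁ := n₂) (fun m n hm hmn => by
      have h2 := hS m n hm hmn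
      have h3 : 0 ≤ (n : ℝ) / m := by positivity
      have hE : 0 < EE μ m := lt_of_lt_of_le one_pos (h1 m)
      have hE' : 0 < EE μ n := lt_of_lt_of_le one_pos (h1 n)
      refine (pow_le_pow_iff_left₀ hE'.le (by positivity) two_ne_zero).1 ?_
      rw [mul_pow, mul_pow, Real.sq_sqrt hA.le, ← Real.sqrt_eq_rpow, Real.sq_sqrt h3]
      exact h2)
  refine ⟨a', max K₁ K₂, ha0, ha1, hK₁.trans (le_max_left _ _), fun m n hm hmn => ?_⟩
  have hK0 : 0 < max K₁ K₂ := lt_of_lt_of_le one_pos (hK₁.trans (le_max_left _ _))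
  have f1 := e1 (max K₁ K₂) (le_max_left _ _) m n hm hmn
  have f2 := e2 (max K₁ K₂) (le_max_right _ _) m n hm hmn
  have hra : 1 ≤ ((n : ℝ) / m) ^ a' := Real.one_le_rpow (one_le_rat96 hm hmn) ha0.le
  have hEm : 0 < EE μ m := lt_of_lt_of_le one_pos (h1 m)
  rw [EE1_96, EE1_96]
  refine ⟨?_, f1, ?_⟩
  · rw [mul_assoc, inv_mul_le_iff₀ hK0] at f1
    refine le_trans ?_ f1
    nlinarith
  · rw [Real.sqrt_eq_rpow]
    exact f2

/-- The width at all scales. -/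
theorem wd_all96 (h : In μ c C n₀) (hF : HF2 μ) : ∃ a K : ℝ, 0 < a ∧ a < 1 ∧ 1 ≤ K ∧ ∀ m n : ℕ, 1 ≤ m → m ≤ n →
    max 1 (wd μ m) ≤ K * max 1 (wd μ n) ∧ K⁻¹ * ((n : ℝ) / m) ^ a * max 1 (wd μ m) ≤ max 1 (wd μ n) ∧
      max 1 (wd μ n) ≤ K * ((n : ℝ) / m) ^ (1 - a) * max 1 (wd μ m) := by
  obtain ⟨a₁, k, ha₁, hk, n₁, hn₁, hW⟩ := wd_ratio h
  obtain ⟨K₀, a₂, n₂, hK₀, ha₂, hn₂, hU⟩ := wd_pow h hF
  obtain ⟨n₃, hn₃⟩ := eventually_atTop.1 ((wd_tendsto h).eventually_ge_atTop 1)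
  have h1 : ∀ n, 1 ≤ max 1 (wd μ n) := fun n => le_max_left _ _
  obtain ⟨a, ha⟩ : ∃ a : ℝ, a = min (min a₁ a₂) (1 / 2) := ⟨_, rfl⟩
  have ha0 : 0 < a := by rw [ha]; exact lt_min (lt_min ha₁ ha₂) (by norm_num)
  have ha1 : a < 1 := by
    have : a ≤ 1 / 2 := by rw [ha]; exact min_le_right _ _
    linarith
  have l1 : a ≤ a₁ := by rw [ha]; exact (min_le_left _ _).trans (min_le_left _ _)
  have l2 : a ≤ a₂ := by rw [ha]; exact (min_le_left _ _).trans (min_le_right _ _)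
  have hmx : ∀ n, n₃ ≤ n → max 1 (wd μ n) = wd μ n := fun n hn => max_eq_right (hn₃ n hn)
  obtain ⟨N, hN⟩ : ∃ N : ℕ, N = max (max n₁ n₂) (max n₃ 1) := ⟨_, rfl⟩
  have hNn : ∀ m, N ≤ m → n₁ ≤ m ∧ n₂ ≤ m ∧ n₃ ≤ m ∧ 1 ≤ m := by
    intro m hm
    rw [hN] at hm
    omega
  obtain ⟨K₁, hK₁, e1⟩ := ext_low96 (f := fun n => max 1 (wd μ n)) h1 (a := a) ha0.le hk (n₁ := N) (fun m n hm hmn => by
    obtain ⟨g1, g2, g3, g4⟩ := hNn m hm
    rw [hmx m g3, hmx n (g3.trans hmn)]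
    refine le_trans ?_ (hW m n g1 hmn)
    refine mul_le_mul_of_nonneg_right (mul_le_mul_of_nonneg_left ?_ hk.le) (zero_le_one.trans (hn₃ m g3))
    exact Real.rpow_le_rpow_of_exponent_le (one_le_rat96 g4 hmn) l1)
  obtain ⟨K₂, hK₂, e2⟩ := ext_up96 (f := fun n => max 1 (wd μ n)) h1 (b := 1 - a) (by linarith) (k := K₀) hK₀
    (n₁ := N) (fun m n hm hmn => by
      obtain ⟨g1, g2, g3, g4⟩ := hNn m hm
      rw [hmx m g3, hmx n (g3.trans hmn)]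
      refine (hU m n g2 hmn).trans ?_
      refine mul_le_mul_of_nonneg_right (mul_le_mul_of_nonneg_left ?_ hK₀.le) (zero_le_one.trans (hn₃ m g3))
      exact Real.rpow_le_rpow_of_exponent_le (one_le_rat96 g4 hmn) (by linarith))
  refine ⟨a, max K₁ K₂, ha0, ha1, hK₁.trans (le_max_left _ _), fun m n hm hmn => ?_⟩
  have hK0 : 0 < max K₁ K₂ := lt_of_lt_of_le one_pos (hK₁.trans (le_max_left _ _))
  have f1 := e1 (max K₁ K₂) (le_max_left _ _) m n hm hmn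
  have f2 := e2 (max K₁ K₂) (le_max_right _ _) m n hm hmn
  have hra : 1 ≤ ((n : ℝ) / m) ^ a := Real.one_le_rpow (one_le_rat96 hm hmn) ha0.le
  refine ⟨?_, f1, f2⟩
  rw [mul_assoc, inv_mul_le_iff₀ hK0] at f1
  refine le_trans ?_ f1
  have h2 := h1 m
  nlinarith

/-- Newman - Piza, for large scales. -/
theorem np_large96 (h : In μ c C n₀) : ∃ a : ℝ, 0 < a ∧ ∃ n₁ : ℕ, ∀ n : ℕ, n₁ ≤ n → a * n ≤ wd μ n * EE μ n ^ 2 := by
  obtain ⟨a, ha, n₁, h1⟩ := var_ge_w h (tail_V h 1)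
  obtain ⟨a₀, A, -, hA0, hA⟩ := sV_EE h
  obtain ⟨n₃, hn₃⟩ := eventually_atTop.1 ((wd_tendsto h).eventually_ge_atTop 1)
  refine ⟨a / A ^ 2, by positivity, max n₁ (max n₃ 1), fun n hn => ?_⟩
  have g1 : n₁ ≤ n := (le_max_left _ _).trans hn
  have g3 : n₃ ≤ n := (le_max_left _ _).trans ((le_max_right _ _).trans hn)
  have g4 : 1 ≤ n := (le_max_right _ _).trans ((le_max_right _ _).trans hn)
  have h2 := h1 n g1
  have h3 := (hA n g4).2
  have hW : 0 ≤ wd μ n := zero_le_one.trans (hn₃ n g3)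
  have hE : 0 < EE μ n := lt_of_lt_of_le one_pos (Pool.Agent.W_7d29a1_G.one_le_EE (μ := μ) n)
  have h4 : Var[fun η => V μ 0 η 0 n; law μ] ≤ A ^ 2 * EE μ n ^ 2 := by
    have h5 : sV μ n ^ 2 = Var[fun η => V μ 0 η 0 n; law μ] := by
      unfold sV
      rw [Real.sq_sqrt (ProbabilityTheory.variance_nonneg _ _)]
    rw [← h5, ← mul_pow]
    exact pow_le_pow_left₀ (Real.sqrt_nonneg _) h3 2
  rw [div_mul_eq_mul_div, div_le_iff₀ (by positivity)]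
  calc a * n ≤ wd μ n * Var[fun η => V μ 0 η 0 n; law μ] := h2
    _ ≤ wd μ n * (A ^ 2 * EE μ n ^ 2) := mul_le_mul_of_nonneg_left h4 hW
    _ = wd μ n * EE μ n ^ 2 * A ^ 2 := by ring

theorem np_all96 (h : In μ c C n₀) : ∃ K : ℝ, 1 ≤ K ∧ ∀ n : ℕ, 1 ≤ n → (n : ℝ) ≤ K * (max 1 (wd μ n) * max 1 (EE μ n) ^ 2) := by
  obtain ⟨a, ha, n₁, h1⟩ := np_large96 h
  refine ⟨max (1 / a) (n₁ + 1), le_trans ?_ (le_max_right _ _), fun n hn => ?_⟩
  · have : (0 : ℝ) ≤ n₁ := Nat.cast_nonneg _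
    linarith
  have hE : 1 ≤ EE μ n := Pool.Agent.W_7d29a1_G.one_le_EE (μ := μ) n
  rw [EE1_96]
  have hP : 1 ≤ max 1 (wd μ n) * EE μ n ^ 2 := by
    have h3 : 1 ≤ EE μ n ^ 2 := one_le_pow₀ hE
    exact one_le_mul_of_one_le_of_one_le (le_max_left _ _) h3
  rcases le_or_gt n₁ n with hc | hc
  · have h2 := h1 n hc
    have h3 : wd μ n * EE μ n ^ 2 ≤ max 1 (wd μ n) * EE μ n ^ 2 :=
      mul_le_mul_of_nonneg_right (le_max_right _ _) (by positivity)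
    have h4 : (n : ℝ) ≤ 1 / a * (max 1 (wd μ n) * EE μ n ^ 2) := by
      rw [one_div, ← div_eq_inv_mul, le_div_iff₀ ha]
      linarith
    exact h4.trans (mul_le_mul_of_nonneg_right (le_max_left _ _) (by positivity))
  · have h2 : (n : ℝ) ≤ n₁ + 1 := by
      have : (n : ℝ) ≤ n₁ := by exact_mod_cast hc.le
      linarith
    calc (n : ℝ) ≤ (n₁ + 1) * 1 := by linarith
      _ ≤ max (1 / a) (n₁ + 1) * (max 1 (wd μ n) * EE μ n ^ 2) :=
          mul_le_mul (le_max_right _ _) hP zero_le_one (le_trans (by positivity) (le_max_left (1 / a) _))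

theorem wd_eq96 (h : In μ c C n₀) : ∃ n₁ : ℕ, ∀ n, n₁ ≤ n → max 1 (wd μ n) = wd μ n ∧ max 1 (EE μ n) = EE μ n ∧
    (n : ℝ) ^ (1 / 4 : ℝ) ≤ wd μ n := by
  obtain ⟨a, ha, n₁, h1⟩ := np_large96 h
  obtain ⟨c', hc', n₂, h2⟩ := wd_ge h
  obtain ⟨n₃, hn₃⟩ := eventually_atTop.1 ((wd_tendsto h).eventually_ge_atTop 1)
  obtain ⟨n₄, hn₄⟩ := eventually_atTop.1
    (((tendsto_rpow_atTop (show (0 : ℝ) < 1 / 4 by norm_num)).comp tendsto_natCast_atTop_atTop).eventually_ge_atTop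
      (1 / (a * c' ^ 2)))
  refine ⟨max (max n₁ n₂) (max n₃ (max n₄ 1)), fun n hn => ?_⟩
  have g1 : n₁ ≤ n := (le_max_left _ _).trans ((le_max_left _ _).trans hn)
  have g2 : n₂ ≤ n := (le_max_right _ _).trans ((le_max_left _ _).trans hn)
  have g3 : n₃ ≤ n := (le_max_left _ _).trans ((le_max_right _ _).trans hn)
  have g4 : n₄ ≤ n := (le_max_left _ _).trans ((le_max_right _ _).trans ((le_max_right _ _).trans hn))
  have g5 : 1 ≤ n := (le_max_right _ _).trans ((le_max_right _ _).trans ((le_max_right _ _).trans hn))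
  have hnR : (0 : ℝ) < n := by exact_mod_cast g5
  refine ⟨max_eq_right (hn₃ n g3), EE1_96 n, ?_⟩
  have hW : 1 ≤ wd μ n := hn₃ n g3
  have hE : 0 < EE μ n := lt_of_lt_of_le one_pos (Pool.Agent.W_7d29a1_G.one_le_EE (μ := μ) n)
  have k1 := h1 n g1
  have k2 := h2 n g2
  have k4 : 1 / (a * c' ^ 2) ≤ (n : ℝ) ^ (1 / 4 : ℝ) := hn₄ n g4
  rw [div_le_iff₀ (by positivity)] at k4
  -- `a c' ^ 2 n ≤ wd ^ 3`
  have k5 : a * c' ^ 2 * n ≤ wd μ n ^ 3 := by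
    calc a * c' ^ 2 * n = c' ^ 2 * (a * n) := by ring
      _ ≤ c' ^ 2 * (wd μ n * EE μ n ^ 2) := mul_le_mul_of_nonneg_left k1 (by positivity)
      _ = wd μ n * (c' * EE μ n) ^ 2 := by ring
      _ ≤ wd μ n * wd μ n ^ 2 := mul_le_mul_of_nonneg_left (pow_le_pow_left₀ (by positivity) k2 2) (by linarith)
      _ = wd μ n ^ 3 := by ring
  refine (pow_le_pow_iff_left₀ (by positivity) (by linarith) (show (3 : ℕ) ≠ 0 by norm_num)).1 ?_
  refine le_trans ?_ k5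
  have e1 : ((n : ℝ) ^ (1 / 4 : ℝ)) ^ 3 * (n : ℝ) ^ (1 / 4 : ℝ) = n := by
    rw [← pow_succ, ← Real.rpow_natCast, ← Real.rpow_mul hnR.le]
    norm_num
  have p4 : (0 : ℝ) < (n : ℝ) ^ (1 / 4 : ℝ) := by positivity
  have p3 : (0 : ℝ) < ((n : ℝ) ^ (1 / 4 : ℝ)) ^ 3 := by positivity
  calc ((n : ℝ) ^ (1 / 4 : ℝ)) ^ 3 = ((n : ℝ) ^ (1 / 4 : ℝ)) ^ 3 * 1 := by ring
    _ ≤ ((n : ℝ) ^ (1 / 4 : ℝ)) ^ 3 * ((n : ℝ) ^ (1 / 4 : ℝ) * (a * c' ^ 2)) := mul_le_mul_of_nonneg_left k4 p3.le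
    _ = ((n : ℝ) ^ (1 / 4 : ℝ)) ^ 3 * (n : ℝ) ^ (1 / 4 : ℝ) * (a * c' ^ 2) := by ring
    _ = a * c' ^ 2 * n := by rw [e1]; ring

end Pool.Agent.W_7d29a1_Z96
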